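import Pool.Agent.FS.BottSamelson4.Cone

set_option autoImplicit false

namespace Pool.Agent.Results.MP_8e5b3d_co.ConeTruncation

open Polynomial Pool.Agent.Lib.MP_8e5b3d_co

/-- Let `(W, S)` be any Coxeter system, `x, y ∈ W`, `J, A ⊆ S` with `W_J` finite, `J` made of right
descents of `x`, `x ∈ W_A`, and `J`, `A` made of left descents of `y`; let `L ≥ 1`.  Then
`Σ_u P_{u,x} q^{ℓ(u)}` is the Poincare polynomial of `W_J` times a polynomial `m`, and the part of
`(1 - q^L) m` of degree below `(deg m + L) / 2`, times `P_{e,y}`, is `P_{e,w}` for an element `w`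
of some Coxeter system, of finite rank if `W` is. -/
theorem result {B W : Type} [Group W] {M : CoxeterMatrix B} (cs : CoxeterSystem M W) :
    ∃ C : W → (W →₀ ℤ[X]), (∀ x P, IsKLColumn cs x P ↔ P = C x) ∧
      ∀ (x y : W) (J A : Set B) (L : ℕ), 0 < L →
        (Subgroup.closure (cs.simple '' J) : Set W).Finite →
        (∀ s ∈ J, cs.IsRightDescent x s) → x ∈ Subgroup.closure (cs.simple '' A) →
        (∀ s ∈ J ∪ A, cs.IsLeftDescent y s) →
        ∃ m : ℤ[X],
          (∑ᶠ v ∈ (Subgroup.closure (cs.simple '' J) : Set W), (X : ℤ[X]) ^ cs.length v) * m =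
            (C x).sum (fun u a => a * X ^ cs.length u) ∧
          ∃ (B' : Type) (M' : CoxeterMatrix B') (w : M'.Group),
            (Finite B → Finite B') ∧ (∃! P, IsKLColumn M'.toCoxeterSystem w P) ∧
            ∀ P, IsKLColumn M'.toCoxeterSystem w P →
              P 1 = (∑ k ∈ Finset.range ((m.natDegree + L + 1) / 2),
                monomial k (((1 - X ^ L) * m).coeff k)) * C y 1 := by
  choose C hC using FS8e5b3d.exists_kl cs
  refine ⟨C, fun x P => ⟨fun h => IsKLColumn.unique _ h (hC x), fun h => h ▸ hC x⟩,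
    fun x y J A L hL h1 h2 h3 h4 => ?_⟩
  obtain ⟨m, hm, K, hK, J', w, P, hP, h5⟩ := FS8e5b3d.Par.main2 cs C hC x y J A L hL h1 h2
    (fun s hs => h4 s (Or.inl hs)) h3 fun s hs => h4 s (Or.inr hs)
  refine ⟨m, hm, _, FS8e5b3d.Par.ext M J', w, fun _ => inferInstance,
    ⟨P, hP, fun Q hQ => IsKLColumn.unique _ hQ hP⟩, fun Q hQ => ?_⟩
  rw [IsKLColumn.unique _ hQ hP]
  exact h5

end Pool.Agent.Results.MP_8e5b3d_co.ConeTruncation
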