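import Pool.Agent.Lib.MP_8e5b3d_co.Main
import Pool.Agent.Lib.MP_8e5b3d_co.Wedge
import Pool.Agent.Lib.MP_8e5b3d_co.H68Clq

set_option autoImplicit false

namespace Pool.Agent.Results.MP_8e5b3d_co.FlagPolynomials

open Polynomial Pool.Agent.Lib.MP_8e5b3d_co

open Classical in
/-- Let `f` be an integer polynomial such that either
(a) `f(0) = 1` and its coefficients are weakly decreasing from degree `1` on, or
(b) `f(0) = 1`, the coefficients are nonnegative and `a_i ≥ 8 ^ j a_j ^ (i / j)` for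
`1 ≤ i < j`, or
(c) `f` is the sum of `q^{r_1 + ⋯ + r_n}` over all vectors `0 ≤ r_i ≤ k_i` whose support is a
clique of a finite simple graph `G`.
Then `f = P_{e,w}` for an element `w` of a right-angled Coxeter system of finite rank. -/
theorem result (f : ℤ[X])
    (hf : (f.coeff 0 = 1 ∧ ∀ j, 1 ≤ j → f.coeff (j + 1) ≤ f.coeff j) ∨
      (f.coeff 0 = 1 ∧ (∀ i, 0 ≤ f.coeff i) ∧
        ∀ i j, 1 ≤ i → i < j → (8 ^ j) ^ j * f.coeff j ^ i ≤ f.coeff i ^ j) ∨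
      ∃ (n : ℕ) (G : SimpleGraph (Fin n)) (k : Fin n → ℕ),
        f = ∑ r : (i : Fin n) → Fin (k i + 1),
          if G.IsClique {i | (r i : ℕ) ≠ 0} then X ^ (∑ i, (r i : ℕ)) else 0) :
    ∃ (B : Type) (_ : Finite B) (M : CoxeterMatrix B) (w : M.Group),
      (∀ i j, i ≠ j → M i j = 0 ∨ M i j = 2) ∧
      (∃! P, IsKLColumn M.toCoxeterSystem w P) ∧
      ∀ P, IsKLColumn M.toCoxeterSystem w P → P 1 = f := by
  have key : ∃ (n : ℕ) (G : SimpleGraph (Fin n)) (k : Fin n → ℕ),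
      f = ∑ r : (i : Fin n) → Fin (k i + 1),
        if G.IsClique {i | (r i : ℕ) ≠ 0} then X ^ (∑ i, (r i : ℕ)) else 0 := by
    rcases hf with ⟨h0, h1⟩ | ⟨h0, h1, h2⟩ | hf
    · obtain ⟨n, k, rfl⟩ := exists_wedge f h0 h1
      exact ⟨n, ⊥, k, (sum_bot k).symm⟩
    · exact (IsClq.of_ineq f h0 h1 h2).fin
    · exact hf
  obtain ⟨n, G, k, rfl⟩ := key
  obtain ⟨P, hP, h1⟩ := exists_column k (cmat G _).toCoxeterSystem rfl
  refine ⟨_, inferInstance, cmat G _, _, cmat_RA G _,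
    ⟨P, hP, fun Q hQ => IsKLColumn.unique _ hQ hP⟩, fun Q hQ => ?_⟩
  rw [IsKLColumn.unique _ hQ hP, h1]

end Pool.Agent.Results.MP_8e5b3d_co.FlagPolynomials
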