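import Pool.Agent.FS.BottSamelson3.P4

set_option autoImplicit false

namespace Pool.Agent.Results.MP_8e5b3d_co.ParabolicProducts

open Polynomial Pool.Agent.Lib.MP_8e5b3d_co

/-- Left multiplication by `h = Σ a_u T_u` in the Hecke algebra over `ℤ[q]`, where `T_u` acts as
`T_{s_1} ⋯ T_{s_k}` for a chosen reduced word `u = s_1 ⋯ s_k`. -/
noncomputable def lmul {B W : Type} [Group W] {M : CoxeterMatrix B} (cs : CoxeterSystem M W)
    (h : W →₀ ℤ[X]) : Module.End ℤ[X] (W →₀ ℤ[X]) :=
  h.sum fun u a => a • ((cs.exists_isReduced u).choose.map (mulT cs X)).prod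

/-- Let `(W, S)` be any Coxeter system and `C_x = Σ_u P_{u,x}(q) T_u`.  Let `x_1, …, x_r` be in `W`
and let `J_i ⊆ S` generate finite subgroups, consist of right descents of `x_i` and of left
descents of `x_{i+1}` (so `J_r` is empty).  Then the coefficient of `T_e` in `C_{x_1} ⋯ C_{x_r}`,
divided by the Poincare polynomials of the `W_{J_i}`, is `P_{e,w}` for an element `w` of some
Coxeter system, of finite rank if `W` is. -/
theorem result {B W : Type} [Group W] {M : CoxeterMatrix B} (cs : CoxeterSystem M W) :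
    ∃ C : W → (W →₀ ℤ[X]), (∀ x P, IsKLColumn cs x P ↔ P = C x) ∧
      ∀ l : List (W × Set B),
        (∀ p ∈ l, (Subgroup.closure (cs.simple '' p.2) : Set W).Finite ∧
          ∀ s ∈ p.2, cs.IsRightDescent p.1 s) →
        (∀ a p b, l = a ++ p :: b → ∀ s ∈ p.2, ∃ p' ∈ b.head?, cs.IsLeftDescent p'.1 s) →
        ∃ (B' : Type) (M' : CoxeterMatrix B') (w : M'.Group),
          (Finite B → Finite B') ∧ (∃! P, IsKLColumn M'.toCoxeterSystem w P) ∧
          ∀ P, IsKLColumn M'.toCoxeterSystem w P →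
            (l.map fun p => ∑ᶠ v ∈ (Subgroup.closure (cs.simple '' p.2) : Set W),
              (X : ℤ[X]) ^ cs.length v).prod * P 1 =
            (l.map fun p => lmul cs (C p.1)).prod (Finsupp.single 1 1) 1 := by
  choose C hC using FS8e5b3d.exists_kl cs
  refine ⟨C, fun x P => ⟨fun h => IsKLColumn.unique _ h (hC x), fun h => h ▸ hC x⟩,
    fun l h1 h2 => ?_⟩
  obtain ⟨K, hK, J, w, P, hP, h3⟩ := FS8e5b3d.Par.main cs C hC l h1 h2
  refine ⟨_, FS8e5b3d.Par.ext M J, w, fun _ => inferInstance,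
    ⟨P, hP, fun Q hQ => IsKLColumn.unique _ hQ hP⟩, fun Q hQ => ?_⟩
  rw [IsKLColumn.unique _ hQ hP]
  exact h3

end Pool.Agent.Results.MP_8e5b3d_co.ParabolicProducts
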